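import Pool.Agent.Q152.CC.Stm3

set_option autoImplicit false

/-!
# Project CC, job LBB: counting Eisenstein integers in a class
-/

namespace Pool.Agent.Q285.CC

open Finset Pool.Agent.Y692.QS Pool.Agent.Q152.CC

/-- the number of the integers in a real interval -/
lemma card_le {x y : ℝ} (h : x ≤ y) : ((Finset.Icc ⌈x⌉ ⌊y⌋).card : ℝ) ≤ y - x + 1 := by
  rw [Int.card_Icc]
  have h1 := Int.floor_le y
  have h2 := Int.le_ceil x
  rcases le_or_gt 0 (⌊y⌋ + 1 - ⌈x⌉) with h3 | h3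
  · have h4 : (((⌊y⌋ + 1 - ⌈x⌉).toNat : ℕ) : ℝ) = ((⌊y⌋ + 1 - ⌈x⌉ : ℤ) : ℝ) := by
      exact_mod_cast congrArg (Int.cast : ℤ → ℝ) (Int.toNat_of_nonneg h3)
    rw [h4]
    push_cast
    linarith
  · rw [Int.toNat_of_nonpos h3.le]
    push_cast
    linarith

theorem lbb : S_LBB := by
  intro M γ T hM hT
  set S : Set Ei := {β : Ei | ((M : ℤ) : Ei) ∣ γ * β - 1 ∧ ((nr β : ℤ) : ℝ) ≤ T} with hS
  have hM0 : (0 : ℝ) < M := by exact_mod_cast hM
  rcases S.eq_empty_or_nonempty with h0 | ⟨β₀, hβ₀⟩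
  · rw [h0]
    refine ⟨Set.finite_empty, ?_⟩
    rw [Set.ncard_empty]
    push_cast
    positivity
  set r : ℝ := Real.sqrt (4 * T / 3) with hr
  have hr0 : 0 ≤ r := Real.sqrt_nonneg _
  have hr2 : r ^ 2 = 4 * T / 3 := Real.sq_sqrt (by positivity)
  set I : ℤ → Finset ℤ := fun k => Finset.Icc ⌈(-r - k) / M⌉ ⌊(r - k) / M⌋ with hI
  have hIc : ∀ k, ((I k).card : ℝ) ≤ 2 * r / M + 1 := by
    intro k
    have h1 : (-r - k) / M ≤ (r - k) / M := by
      apply div_le_div_of_nonneg_right _ hM0.le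
      linarith
    refine (card_le h1).trans (le_of_eq ?_)
    field_simp
    ring
  set F : Finset Ei := ((I β₀.re) ×ˢ (I β₀.im)).image
    (fun t : ℤ × ℤ => (⟨β₀.re + M * t.1, β₀.im + M * t.2⟩ : Ei)) with hF
  have hmem : ∀ k x a : ℤ, x = k + M * a → (x : ℝ) ^ 2 ≤ 4 * T / 3 → a ∈ I k := by
    intro k x a hx hx2
    have h1 : |(x : ℝ)| ≤ r := by
      rw [hr]
      apply Real.le_sqrt_of_sq_le
      rw [sq_abs]
      exact hx2
    have h2 : (x : ℝ) = k + M * a := by exact_mod_cast hx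
    rw [abs_le] at h1
    simp only [hI, Finset.mem_Icc]
    constructor
    · rw [Int.ceil_le, div_le_iff₀ hM0]
      linarith [h1.1]
    · rw [Int.le_floor, le_div_iff₀ hM0]
      linarith [h1.2]
  have hsub : S ⊆ (F : Set Ei) := by
    intro β hβ
    have hd : ((M : ℤ) : Ei) ∣ β - β₀ := by
      have e2 : γ * (β - β₀) = (γ * β - 1) - (γ * β₀ - 1) := by ring
      have e3 : β - β₀ = (γ * β₀ - 1) * (-(β - β₀)) + β₀ * ((γ * β - 1) - (γ * β₀ - 1)) := by
        rw [← e2]; ring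
      rw [e3]
      exact dvd_add (hβ₀.1.mul_right _) ((dvd_sub hβ.1 hβ₀.1).mul_left _)
    rw [int_dvd] at hd
    obtain ⟨⟨a, ha⟩, ⟨b, hb⟩⟩ := hd
    rw [QuadraticAlgebra.re_sub] at ha
    rw [QuadraticAlgebra.im_sub] at hb
    have ha2 : β.re = β₀.re + M * a := by linarith
    have hb2 : β.im = β₀.im + M * b := by linarith
    have hn : ((nr β : ℤ) : ℝ) = (β.re : ℝ) ^ 2 - β.re * β.im + (β.im : ℝ) ^ 2 := by
      unfold nr
      push_cast
      ring
    have hT2 := hβ.2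
    rw [hn] at hT2
    have hx : (β.re : ℝ) ^ 2 ≤ 4 * T / 3 := by
      nlinarith [sq_nonneg ((β.re : ℝ) - 2 * β.im)]
    have hy : (β.im : ℝ) ^ 2 ≤ 4 * T / 3 := by
      nlinarith [sq_nonneg ((β.im : ℝ) - 2 * β.re)]
    rw [Finset.mem_coe, hF, Finset.mem_image]
    refine ⟨(a, b), ?_, ?_⟩
    · rw [Finset.mem_product]
      exact ⟨hmem _ _ _ ha2 hx, hmem _ _ _ hb2 hy⟩
    · ext
      · simp only
        exact ha2.symm
      · simp only
        exact hb2.symm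
  refine ⟨F.finite_toSet.subset hsub, ?_⟩
  have h1 : S.ncard ≤ (I β₀.re).card * (I β₀.im).card := by
    refine (Set.ncard_le_ncard hsub F.finite_toSet).trans ?_
    rw [Set.ncard_coe_finset]
    exact Finset.card_image_le.trans (le_of_eq (Finset.card_product _ _))
  have h2 : (S.ncard : ℝ) ≤ (2 * r / M + 1) * (2 * r / M + 1) := by
    calc (S.ncard : ℝ) ≤ ((I β₀.re).card : ℝ) * ((I β₀.im).card : ℝ) := by exact_mod_cast h1
      _ ≤ _ := mul_le_mul (hIc _) (hIc _) (Nat.cast_nonneg _) (by positivity)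
  have h3 : (2 * r / M) ^ 2 = 16 * T / 3 / (M : ℝ) ^ 2 := by
    rw [div_pow, mul_pow, hr2]
    ring
  have h4 : (2 * r / M + 1) * (2 * r / M + 1) ≤ 2 * (2 * r / M) ^ 2 + 2 := by
    nlinarith [sq_nonneg (2 * r / M - 1)]
  refine h2.trans (h4.trans ?_)
  rw [h3]
  have h5 : 2 * (16 * T / 3 / (M : ℝ) ^ 2) = (32 / 3) * T / (M : ℝ) ^ 2 := by ring
  rw [h5]
  have h6 : (32 / 3) * T / (M : ℝ) ^ 2 ≤ 11 * T / (M : ℝ) ^ 2 := by
    apply div_le_div_of_nonneg_right _ (by positivity)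
    linarith
  linarith

end Pool.Agent.Q285.CC
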